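import Pool.Agent.Lib_helper35.DC.Defs

/-! Block AL: elementary facts on small sets. -/

set_option autoImplicit false

open MeasureTheory Filter Topology

namespace Pool.Agent.DC

section

variable {G P : Type} [Group G] [MetricSpace P] [MeasurableSpace P] [BorelSpace P] [CompactSpace P]

theorem AL_fin (D : Cnt G P) (A : Set G) (r : ℝ) : {g | g ∈ A ∧ D.len g ≤ r}.Finite :=
  (D.fin r).subset fun _ h => h.2

theorem AL_mono (D : Cnt G P) {A B : Set G} (h : A ⊆ B) {ε ε' : ℝ} (he : ε ≤ ε')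
    (hB : D.Small B ε) : D.Small A ε' := by
  filter_upwards [hB] with r hr
  have h1 : Set.ncard {g | g ∈ A ∧ D.len g ≤ r} ≤ Set.ncard {g | g ∈ B ∧ D.len g ≤ r} :=
    Set.ncard_le_ncard (fun g hg => ⟨h hg.1, hg.2⟩) (AL_fin D B r)
  have h2 : (Set.ncard {g | g ∈ A ∧ D.len g ≤ r} : ℝ) ≤ Set.ncard {g | g ∈ B ∧ D.len g ≤ r} := by
    exact_mod_cast h1
  exact (h2.trans hr).trans (mul_le_mul_of_nonneg_right he (Real.exp_pos _).le)

theorem AL_union (D : Cnt G P) {A B : Set G} {ε ε' : ℝ} (hA : D.Small A ε) (hB : D.Small B ε') :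
    D.Small (A ∪ B) (ε + ε') := by
  filter_upwards [hA, hB] with r h1 h2
  have h3 : {g | g ∈ A ∪ B ∧ D.len g ≤ r} =
      {g | g ∈ A ∧ D.len g ≤ r} ∪ {g | g ∈ B ∧ D.len g ≤ r} := by
    ext g
    constructor
    · rintro ⟨h | h, h'⟩
      · exact Or.inl ⟨h, h'⟩
      · exact Or.inr ⟨h, h'⟩
    · rintro (⟨h, h'⟩ | ⟨h, h'⟩)
      · exact ⟨Or.inl h, h'⟩
      · exact ⟨Or.inr h, h'⟩
  have h4 : (Set.ncard {g | g ∈ A ∪ B ∧ D.len g ≤ r} : ℝ) ≤
      Set.ncard {g | g ∈ A ∧ D.len g ≤ r} + Set.ncard {g | g ∈ B ∧ D.len g ≤ r} := by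
    rw [h3]
    exact_mod_cast Set.ncard_union_le _ _
  rw [add_mul]
  exact h4.trans (add_le_add h1 h2)

theorem AL_inv (D : Cnt G P) {A : Set G} {ε : ℝ} (hA : D.Small A ε) :
    D.Small {g | g⁻¹ ∈ A} ε := by
  filter_upwards [hA] with r hr
  have h1 : {g | g⁻¹ ∈ A ∧ D.len g ≤ r} = (fun g => g⁻¹) '' {g | g ∈ A ∧ D.len g ≤ r} := by
    ext g
    constructor
    · rintro ⟨h, h'⟩
      refine ⟨g⁻¹, ⟨h, ?_⟩, inv_inv g⟩
      rw [D.inv]
      exact h'
    · rintro ⟨k, ⟨h, h'⟩, rfl⟩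
      refine ⟨?_, ?_⟩
      · show k⁻¹⁻¹ ∈ A
        rwa [inv_inv]
      · show D.len k⁻¹ ≤ r
        rwa [D.inv]
  rw [h1, Set.ncard_image_of_injective _ inv_injective]
  exact hr

theorem AL_iUnion (D : Cnt G P) {ι : Type} [Finite ι] {A : ι → Set G} (h : ∀ j, D.Negl (A j)) :
    D.Negl (⋃ j, A j) := by
  classical
  have key : ∀ s : Finset ι, D.Negl (⋃ j ∈ s, A j) := by
    intro s
    induction s using Finset.induction_on with
    | empty =>
      intro ε hε
      refine Eventually.of_forall fun r => ?_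
      have h0 : {g | g ∈ ⋃ j ∈ (∅ : Finset ι), A j ∧ D.len g ≤ r} = (∅ : Set G) := by
        ext g
        simp
      rw [h0, Set.ncard_empty]
      have := Real.exp_pos (D.h * r)
      push_cast
      positivity
    | insert a s _ ih =>
      intro ε hε
      have h1 := AL_union D (h a (ε / 2) (half_pos hε)) (ih (ε / 2) (half_pos hε))
      rw [add_halves] at h1
      refine AL_mono D ?_ le_rfl h1
      intro g hg
      rw [Finset.set_biUnion_insert] at hg
      exact hg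
  have : Fintype ι := Fintype.ofFinite ι
  intro ε hε
  refine AL_mono D ?_ le_rfl (key Finset.univ ε hε)
  intro g hg
  simpa using hg

theorem AL_ball (D : Cnt G P) : Tendsto (fun r => Real.exp (-(D.h * r)) *
    (Set.ncard {g : G | D.len g ≤ r} : ℝ)) atTop (𝓝 D.C) := by
  have h1 := D.equi (fun _ => 1) continuous_const
  have hp := D.prob
  have h2 : D.C * ∫ _z : P × P, (1 : ℝ) ∂(D.nu.prod D.nu) = D.C := by
    simp
  rw [h2] at h1
  refine h1.congr fun r => ?_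
  have h3 : (∑ _g ∈ (D.fin r).toFinset, (1 : ℝ)) = (Set.ncard {g : G | D.len g ≤ r} : ℝ) := by
    rw [Finset.sum_const, nsmul_eq_mul, mul_one, ← Set.ncard_eq_toFinset_card _ (D.fin r)]
  rw [h3]

theorem AL_shift (D : Cnt G P) (ε : ℝ) (hε : 0 < ε) : ∃ s : ℝ, 0 ≤ s ∧ ∀ᶠ r in atTop,
    (Set.ncard {g : G | D.len g ≤ r - s} : ℝ) ≤ ε * Real.exp (D.h * r) := by
  have hh := D.hpos
  have hC := D.Cpos
  obtain ⟨s, hs⟩ : ∃ s, s = max 0 (Real.log ((D.C + 1) / ε) / D.h) := ⟨_, rfl⟩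
  have hs0 : 0 ≤ s := by
    rw [hs]
    exact le_max_left _ _
  have hs1 : (D.C + 1) * Real.exp (-(D.h * s)) ≤ ε := by
    have h1 : Real.log ((D.C + 1) / ε) / D.h ≤ s := by
      rw [hs]
      exact le_max_right _ _
    rw [div_le_iff₀ hh] at h1
    have h2 : (D.C + 1) / ε ≤ Real.exp (s * D.h) := by
      rw [← Real.exp_log (show (0 : ℝ) < (D.C + 1) / ε by positivity)]
      exact Real.exp_le_exp.2 h1
    rw [div_le_iff₀ hε] at h2
    rw [Real.exp_neg, ← div_eq_mul_inv, div_le_iff₀ (Real.exp_pos _), mul_comm D.h s]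
    linarith
  refine ⟨s, hs0, ?_⟩
  have h1 : Tendsto (fun r : ℝ => r - s) atTop atTop := tendsto_atTop_add_const_right _ (-s) tendsto_id
  have h2 := (AL_ball D).comp h1
  have h3 := h2.eventually (gt_mem_nhds (show D.C < D.C + 1 by linarith))
  filter_upwards [h3] with r hr
  have h4 : Real.exp (-(D.h * (r - s))) * (Set.ncard {g : G | D.len g ≤ r - s} : ℝ) < D.C + 1 := hr
  have h5 : (Set.ncard {g : G | D.len g ≤ r - s} : ℝ) ≤ (D.C + 1) * Real.exp (D.h * (r - s)) := by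
    have h6 : (Set.ncard {g : G | D.len g ≤ r - s} : ℝ) = Real.exp (D.h * (r - s)) *
        (Real.exp (-(D.h * (r - s))) * (Set.ncard {g : G | D.len g ≤ r - s} : ℝ)) := by
      rw [← mul_assoc, ← Real.exp_add, add_neg_cancel, Real.exp_zero, one_mul]
    rw [h6, mul_comm (D.C + 1)]
    exact mul_le_mul_of_nonneg_left h4.le (Real.exp_pos _).le
  refine h5.trans ?_
  have h7 : Real.exp (D.h * (r - s)) = Real.exp (-(D.h * s)) * Real.exp (D.h * r) := by
    rw [← Real.exp_add]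
    congr 1
    ring
  rw [h7, ← mul_assoc]
  exact mul_le_mul_of_nonneg_right hs1 (Real.exp_pos _).le

end

end Pool.Agent.DC
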