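import Pool.Agent.Lib_helper73.DC.PS

/-! Block PV: almost all group elements have a barrier. -/

set_option autoImplicit false

open MeasureTheory Filter Topology

namespace Pool.Agent.DC

theorem PV_symm {X : Type} [MetricSpace X] {D : ℝ} {σ : Set X} {a b : X} (h : Seg D σ a b) :
    Seg D σ b a where
  comp := h.comp
  left := h.right
  right := h.left
  geod p hp := by
    rw [dist_comm b p, dist_comm p a, dist_comm b a, add_comm]
    exact h.geod p hp
  contr := h.contr

theorem PV_smul {G X : Type} [Group G] [MetricSpace X] [MulAction G X]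
    (isom : ∀ (g : G) (x y : X), dist (g • x) (g • y) = dist x y) {D : ℝ} {σ : Set X} {a b : X}
    (h : Seg D σ a b) (t : G) : Seg D ((fun x => t • x) '' σ) (t • a) (t • b) where
  comp := by
    refine h.comp.image ?_
    exact (Isometry.of_dist_eq fun x y => isom t x y).continuous
  left := ⟨a, h.left, rfl⟩
  right := ⟨b, h.right, rfl⟩
  geod := by
    rintro _ ⟨p, hp, rfl⟩
    show dist (t • a) (t • p) + dist (t • p) (t • b) = dist (t • a) (t • b)
    rw [isom, isom, isom]
    exact h.geod p hp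
  contr := by
    rintro x y _ ⟨p, hp, rfl⟩ _ ⟨q, hq, rfl⟩ h1 h2 h3
    have hx : ∀ s : X, dist x (t • s) = dist (t⁻¹ • x) s := by
      intro s
      rw [← isom t (t⁻¹ • x) s, smul_inv_smul]
    have hy : ∀ s : X, dist y (t • s) = dist (t⁻¹ • y) s := by
      intro s
      rw [← isom t (t⁻¹ • y) s, smul_inv_smul]
    have h4 := h.contr (t⁻¹ • x) (t⁻¹ • y) p hp q hq
      (fun s hs => by
        rw [← hx, ← hx]
        exact h1 _ ⟨s, hs, rfl⟩)
      (fun s hs => by
        rw [← hy, ← hy]
        exact h2 _ ⟨s, hs, rfl⟩)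
      (by
        have h5 : D ≤ dist (t • p) (t • q) := h3
        rwa [isom] at h5)
    show dist x (t • p) + dist (t • p) (t • q) + dist (t • q) y ≤ dist x y + D
    rw [hx, isom, dist_comm (t • q) y, hy, dist_comm (t⁻¹ • y) q]
    have h6 : dist (t⁻¹ • x) (t⁻¹ • y) = dist x y := isom _ _ _
    rwa [h6] at h4

section

variable {G X M : Type} [Group G] [MetricSpace X] [MulAction G X] [MetricSpace M]
    [MeasurableSpace M] [BorelSpace M] [MulAction G M]

/-- BLOCK PV. The same for almost all group elements. -/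
theorem PV_main (T : TD G X M) (R : ℝ) : ∃ D' : ℝ, T.cnt.Negl {g | ¬ ∀ x y : X,
    dist x T.o + T.len g - R ≤ dist x (g • T.o) → dist y (g • T.o) + T.len g - R ≤ dist y T.o →
      dist x T.o + T.len g + dist (g • T.o) y - D' ≤ dist x y} := by
  obtain ⟨ε, D, hb⟩ := T.barrier
  obtain ⟨L, D', hPS⟩ := PS_main (X := X) ε D R
  obtain ⟨f, σ, hσ, hL, hcount⟩ := hb L
  refine ⟨D', fun δ hδ => ?_⟩
  filter_upwards [hcount δ hδ] with r hr
  refine le_trans ?_ hr
  have hfin : {g : G | dist T.o (g • T.o) ≤ r ∧ ¬ ∃ t : G,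
      dist T.o (t • T.o) + dist (t • T.o) (t • f • T.o) + dist (t • f • T.o) (g • T.o) ≤
        dist T.o (g • T.o) + ε ∨
      dist T.o (t • f • T.o) + dist (t • f • T.o) (t • T.o) + dist (t • T.o) (g • T.o) ≤
        dist T.o (g • T.o) + ε}.Finite := (T.fin r).subset fun g hg => hg.1
  have hle := Set.ncard_le_ncard (s := {g | g ∈ {g | ¬ ∀ x y : X,
    dist x T.o + T.len g - R ≤ dist x (g • T.o) → dist y (g • T.o) + T.len g - R ≤ dist y T.o →
      dist x T.o + T.len g + dist (g • T.o) y - D' ≤ dist x y} ∧ T.cnt.len g ≤ r}) ?_ hfin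
  · exact_mod_cast hle
  · rintro g ⟨hg, hr'⟩
    refine ⟨hr', ?_⟩
    rintro ⟨t, h | h⟩
    · apply hg
      intro x y hx hy
      refine hPS _ (t • T.o) (t • f • T.o) T.o (g • T.o) (PV_smul T.isom hσ t) ?_ h x y hx hy
      rw [T.isom]
      exact hL
    · apply hg
      intro x y hx hy
      refine hPS _ (t • f • T.o) (t • T.o) T.o (g • T.o) (PV_symm (PV_smul T.isom hσ t)) ?_ h
        x y hx hy
      rw [T.isom, dist_comm]
      exact hL

end

end Pool.Agent.DC
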