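import Pool.Agent.Lib_helper56.DC.CM
import Pool.Agent.Lib_helper37.DC.AL

/-! Block CQ: counting with finitely many conditions. -/

set_option autoImplicit false

open MeasureTheory Filter Topology

namespace Pool.Agent.DC

section

variable {G P : Type} [Group G] [MetricSpace P] [MeasurableSpace P] [BorelSpace P] [CompactSpace P]

/-- BLOCK CQ. Counting with finitely many conditions. -/
theorem CQ_main (D : Cnt G P) {ι : Type} [Finite ι] (l : ι → G → ℝ) (m : ι → P × P → ℝ)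
    (hm : ∀ j, Continuous (m j)) (i0 : ι) (h0 : ∀ g, l i0 g = D.len g)
    (hl : ∀ j, ∀ δ > 0, D.Negl {g | δ ≤ |l j g - D.len g - m j (D.pi g, D.pi g⁻¹)|}) :
    ∃ L : ℝ, Tendsto (fun r => Real.exp (-(D.h * r)) * (Set.ncard {g : G | ∀ j, l j g ≤ r} : ℝ))
      atTop (𝓝 L) := by
  classical
  have : Fintype ι := Fintype.ofFinite ι
  have hne : (Finset.univ : Finset ι).Nonempty := ⟨i0, Finset.mem_univ _⟩
  obtain ⟨ms, hms⟩ : ∃ ms : P × P → ℝ, ms = fun z => Finset.univ.sup' hne fun j => m j z := ⟨_, rfl⟩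
  have hmc : Continuous ms := by
    rw [hms]
    exact Continuous.finset_sup'_apply hne fun j _ => hm j
  have hm1 : ∀ j z, m j z ≤ ms z := by
    intro j z
    rw [hms]
    exact Finset.le_sup' (fun j => m j z) (Finset.mem_univ j)
  have hm2 : ∀ z a, (∀ j, m j z ≤ a) → ms z ≤ a := by
    intro z a h
    rw [hms]
    exact Finset.sup'_le hne _ fun j _ => h j
  obtain ⟨c, hc⟩ : ∃ c : ℝ, ∀ z, -ms z ≤ c := by
    obtain ⟨c, hc⟩ := (isCompact_range (hmc.neg)).bddAbove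
    exact ⟨c, fun z => hc ⟨z, rfl⟩⟩
  obtain ⟨I, hI⟩ : ∃ I, I = D.C * ∫ z, Real.exp (-(D.h * ms z)) ∂(D.nu.prod D.nu) := ⟨_, rfl⟩
  have hCM := CM_main D ms hmc
  rw [← hI] at hCM
  obtain ⟨F, hF⟩ : ∃ F : ℝ → ℝ, F = fun r => Real.exp (-(D.h * r)) *
      (Set.ncard {g : G | D.len g + ms (D.pi g, D.pi g⁻¹) ≤ r} : ℝ) := ⟨_, rfl⟩
  rw [← hF] at hCM
  -- the exceptional sets
  obtain ⟨A, hA⟩ : ∃ A : ℝ → Set G, A = fun δ =>
      ⋃ j, {g | δ ≤ |l j g - D.len g - m j (D.pi g, D.pi g⁻¹)|} := ⟨_, rfl⟩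
  have hAn : ∀ δ > 0, D.Negl (A δ) := by
    intro δ hδ
    rw [hA]
    exact AL_iUnion D fun j => hl j δ hδ
  have hAj : ∀ δ g, g ∉ A δ → ∀ j, |l j g - D.len g - m j (D.pi g, D.pi g⁻¹)| < δ := by
    intro δ g hg j
    rw [hA] at hg
    by_contra hcon
    exact hg (Set.mem_iUnion.2 ⟨j, not_lt.1 hcon⟩)
  -- finiteness
  have fin1 : ∀ r, {g : G | ∀ j, l j g ≤ r}.Finite := by
    intro r
    refine (D.fin r).subset fun g hg => ?_
    have := hg i0
    rw [h0] at this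
    exact this
  have fin2 : ∀ r, {g : G | D.len g + ms (D.pi g, D.pi g⁻¹) ≤ r}.Finite := by
    intro r
    refine (D.fin (r + c)).subset fun g hg => ?_
    have h1 : D.len g + ms (D.pi g, D.pi g⁻¹) ≤ r := hg
    have h2 := hc (D.pi g, D.pi g⁻¹)
    show D.len g ≤ r + c
    linarith
  have fin3 : ∀ δ r, {g : G | g ∈ A δ ∧ D.len g ≤ r}.Finite := fun δ r => AL_fin D (A δ) r
  -- the two inclusions
  have up : ∀ δ > 0, ∀ r, (Set.ncard {g : G | ∀ j, l j g ≤ r} : ℝ) ≤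
      Set.ncard {g : G | D.len g + ms (D.pi g, D.pi g⁻¹) ≤ r + δ} +
        Set.ncard {g : G | g ∈ A δ ∧ D.len g ≤ r} := by
    intro δ hδ r
    have h1 : {g : G | ∀ j, l j g ≤ r} ⊆ {g : G | D.len g + ms (D.pi g, D.pi g⁻¹) ≤ r + δ} ∪
        {g : G | g ∈ A δ ∧ D.len g ≤ r} := by
      intro g hg
      by_cases hgA : g ∈ A δ
      · refine Or.inr ⟨hgA, ?_⟩
        have := hg i0
        rw [h0] at this
        exact this
      · refine Or.inl ?_
        have h2 : ms (D.pi g, D.pi g⁻¹) ≤ r + δ - D.len g := by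
          refine hm2 _ _ fun j => ?_
          have h3 := abs_lt.1 (hAj δ g hgA j)
          have h4 := hg j
          linarith [h3.1]
        show D.len g + ms (D.pi g, D.pi g⁻¹) ≤ r + δ
        linarith
    have h2 := Set.ncard_le_ncard h1 ((fin2 _).union (fin3 _ _))
    exact_mod_cast h2.trans (Set.ncard_union_le _ _)
  have lo : ∀ δ > 0, ∀ r, (Set.ncard {g : G | D.len g + ms (D.pi g, D.pi g⁻¹) ≤ r - δ} : ℝ) ≤
      Set.ncard {g : G | ∀ j, l j g ≤ r} + Set.ncard {g : G | g ∈ A δ ∧ D.len g ≤ r + c} := by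
    intro δ hδ r
    have h1 : {g : G | D.len g + ms (D.pi g, D.pi g⁻¹) ≤ r - δ} ⊆ {g : G | ∀ j, l j g ≤ r} ∪
        {g : G | g ∈ A δ ∧ D.len g ≤ r + c} := by
      intro g hg
      have hg' : D.len g + ms (D.pi g, D.pi g⁻¹) ≤ r - δ := hg
      by_cases hgA : g ∈ A δ
      · refine Or.inr ⟨hgA, ?_⟩
        have h2 := hc (D.pi g, D.pi g⁻¹)
        show D.len g ≤ r + c
        linarith
      · refine Or.inl fun j => ?_
        have h3 := abs_lt.1 (hAj δ g hgA j)
        have h4 := hm1 j (D.pi g, D.pi g⁻¹)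
        linarith [h3.2]
    have h2 := Set.ncard_le_ncard h1 ((fin1 _).union (fin3 _ _))
    exact_mod_cast h2.trans (Set.ncard_union_le _ _)
  refine ⟨I, ?_⟩
  rw [Metric.tendsto_atTop']
  intro ε hε
  -- choice of `δ`
  have c1 : Tendsto (fun δ : ℝ => Real.exp (D.h * δ) * (I + δ) + δ) (𝓝[>] 0) (𝓝 I) := by
    have h1 : Continuous fun δ : ℝ => Real.exp (D.h * δ) * (I + δ) + δ := by fun_prop
    exact (h1.tendsto' 0 I (by simp)).mono_left nhdsWithin_le_nhds
  have c2 : Tendsto (fun δ : ℝ => Real.exp (-(D.h * δ)) * (I - δ) - δ * Real.exp (D.h * c))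
      (𝓝[>] 0) (𝓝 I) := by
    have h1 : Continuous fun δ : ℝ => Real.exp (-(D.h * δ)) * (I - δ) - δ * Real.exp (D.h * c) := by
      fun_prop
    exact (h1.tendsto' 0 I (by simp)).mono_left nhdsWithin_le_nhds
  obtain ⟨δ, ⟨hδ1, hδ2⟩, hδ⟩ := (((c1.eventually (gt_mem_nhds (show I < I + ε by linarith))).and
    (c2.eventually (lt_mem_nhds (show I - ε < I by linarith)))).and
      (self_mem_nhdsWithin : Set.Ioi (0 : ℝ) ∈ 𝓝[>] 0)).exists
  have hδ0 : 0 < δ := hδ
  have t1 : Tendsto (fun r : ℝ => r + δ) atTop atTop := tendsto_atTop_add_const_right _ δ tendsto_id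
  have t2 : Tendsto (fun r : ℝ => r - δ) atTop atTop := tendsto_atTop_add_const_right _ (-δ) tendsto_id
  have t3 : Tendsto (fun r : ℝ => r + c) atTop atTop := tendsto_atTop_add_const_right _ c tendsto_id
  have e1 := (hCM.comp t1).eventually (gt_mem_nhds (show I < I + δ by linarith))
  have e2 := (hCM.comp t2).eventually (lt_mem_nhds (show I - δ < I by linarith))
  have e3 : ∀ᶠ r in atTop, (Set.ncard {g | g ∈ A δ ∧ D.len g ≤ r} : ℝ) ≤ δ * Real.exp (D.h * r) :=
    hAn δ hδ0 δ hδ0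
  have e4 := t3.eventually e3
  obtain ⟨r0, hr0⟩ := eventually_atTop.1 (((e1.and e2).and e3).and e4)
  refine ⟨r0, fun r hr => ?_⟩
  obtain ⟨⟨⟨f1, f2⟩, f3⟩, f4⟩ := hr0 r hr.le
  have f1' : F (r + δ) < I + δ := f1
  have f2' : I - δ < F (r - δ) := f2
  rw [hF] at f1' f2'
  have pe : 0 < Real.exp (-(D.h * r)) := Real.exp_pos _
  have x1 : Real.exp (-(D.h * r)) = Real.exp (D.h * δ) * Real.exp (-(D.h * (r + δ))) := by
    rw [← Real.exp_add]
    congr 1
    ring
  have x2 : Real.exp (-(D.h * r)) = Real.exp (-(D.h * δ)) * Real.exp (-(D.h * (r - δ))) := by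
    rw [← Real.exp_add]
    congr 1
    ring
  have x3 : Real.exp (-(D.h * r)) * Real.exp (D.h * r) = 1 := by
    rw [← Real.exp_add, neg_add_cancel, Real.exp_zero]
  have x4 : Real.exp (-(D.h * r)) * Real.exp (D.h * (r + c)) = Real.exp (D.h * c) := by
    rw [← Real.exp_add]
    congr 1
    ring
  rw [Real.dist_eq, abs_lt]
  constructor
  · -- lower bound
    have h1 := mul_le_mul_of_nonneg_left (lo δ hδ0 r) pe.le
    rw [mul_add] at h1
    have h2 : Real.exp (-(D.h * r)) * (Set.ncard {g : G | g ∈ A δ ∧ D.len g ≤ r + c} : ℝ) ≤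
        δ * Real.exp (D.h * c) := by
      have := mul_le_mul_of_nonneg_left f4 pe.le
      refine this.trans (le_of_eq ?_)
      rw [mul_left_comm, x4]
    have h3 : Real.exp (-(D.h * δ)) * (I - δ) ≤ Real.exp (-(D.h * r)) *
        (Set.ncard {g : G | D.len g + ms (D.pi g, D.pi g⁻¹) ≤ r - δ} : ℝ) := by
      rw [x2, mul_assoc]
      exact mul_le_mul_of_nonneg_left f2'.le (Real.exp_pos _).le
    linarith
  · have h1 := mul_le_mul_of_nonneg_left (up δ hδ0 r) pe.le
    rw [mul_add] at h1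
    have h2 : Real.exp (-(D.h * r)) * (Set.ncard {g : G | g ∈ A δ ∧ D.len g ≤ r} : ℝ) ≤ δ := by
      have := mul_le_mul_of_nonneg_left f3 pe.le
      refine this.trans (le_of_eq ?_)
      rw [mul_left_comm, x3, mul_one]
    have h3 : Real.exp (-(D.h * r)) *
        (Set.ncard {g : G | D.len g + ms (D.pi g, D.pi g⁻¹) ≤ r + δ} : ℝ) ≤
        Real.exp (D.h * δ) * (I + δ) := by
      rw [x1, mul_assoc]
      exact mul_le_mul_of_nonneg_left f1'.le (Real.exp_pos _).le
    linarith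

end

end Pool.Agent.DC
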